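import Pool.Agent.W684.SG.Final

/-!
# Abstract projective sets and countably generated sigma-algebras: independence

* There is a notion of forcing `P` (the countable support product of more than continuum many
  Silver forcings) all of whose conditions force the combinatorial sentence `PhiFor`
  (`PhiHolds P` is its literal translation into the forcing language).
* `PhiFor` implies that for some sequence `A` of subsets of `E` no countably generated
  sigma-algebra on `E` contains all projective sets of class 1 over `A`.
* The continuum hypothesis implies that for all sequences `A` the sets which are projective over
  `A` belong to a countably generated sigma-algebra.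
-/

set_option autoImplicit false

namespace Pool.Agent.Results.MP_17aaef_lc.Independent

open Pool.Agent.W684.SG Cardinal MeasureTheory

/-- (A) There is a notion of forcing `P` all of whose conditions force the sentence `PhiFor`.
(B) If `PhiFor` holds and `E` has the cardinality of the continuum then there is a sequence `A` of
subsets of `E` such that no countably generated sigma-algebra on `E` contains all projective sets
of class 1 over `A`. (C) If the continuum hypothesis holds and `E` has the cardinality of the
continuum then for every sequence `A` of subsets of `E` there is a sequence `B` of subsets of `E`
such that all sets which are projective over `A` belong to the sigma-algebra generated by the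
sets `B n`. -/
theorem result :
    (∃ (P : Type) (_ : Preorder P), Nonempty P ∧ ∀ p : P, p ∈ PhiHolds P) ∧
    (PhiFor → ∀ E : Type, #E = 𝔠 → ∃ A : ℕ → Set E, ∀ B : ℕ → Set E, ∃ S : Set E,
      {x : Fin 1 → E | x 0 ∈ S} ∈ ProjClass A 0 1 ∧
        ¬ MeasurableSet[MeasurableSpace.generateFrom (Set.range B)] S) ∧
    ((ℵ₁ : Cardinal.{0}) = 𝔠 → ∀ E : Type, #E = 𝔠 → ∀ A : ℕ → Set E, ∃ B : ℕ → Set E,
      ∀ S : Set E, ProjectiveOver A S →
        MeasurableSet[MeasurableSpace.generateFrom (Set.range B)] S) :=
  ⟨exists_forcing, fun h E hE => projective_neg h E hE, fun h E hE A => projective_pos h E hE A⟩

end Pool.Agent.Results.MP_17aaef_lc.Independent
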